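import Pool.Agent.Lib.MP_0c0e10_co.Upper

set_option autoImplicit false
open Set Pool.Agent.Lib.MP_0c0e10_co

namespace Pool.Agent.Results.MP_0c0e10_co.NotSeparable

/-- A finite simple graph with a crossing-minimizing drawing (in which moreover no three edges
share an interior point) and an edge `e` such that every simple closed curve containing `e` meets
some other edge in at least two points. -/
theorem result : ∃ (V : Type) (_ : Finite V) (G : SimpleGraph V) (D : Drawing G),
    (∀ D' : Drawing G, crossings D ≤ crossings D') ∧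
    (∀ e f g, e ≠ f → f ≠ g → e ≠ g →
      D.arc e '' Ioo 0 1 ∩ D.arc f '' Ioo 0 1 ∩ D.arc g '' Ioo 0 1 = ∅) ∧
    ∃ e, ¬ ∃ γ : Circle → ℂ, Continuous γ ∧ Function.Injective γ ∧ range (D.arc e) ⊆ range γ ∧
      ∀ f ≠ e, (range γ ∩ range (D.arc f)).Subsingleton :=
  ⟨VV, inferInstance, GG, D0, fun D' => upper_bound.trans (lower_bound D'), no_triple,
    eE (.inl 0), not_sep⟩

end Pool.Agent.Results.MP_0c0e10_co.NotSeparable
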